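import Pool.Agent.H65.AP.Defs
import Pool.Agent.H95.GC.Trans
import Pool.Agent.H26.LM.GenInj

/-!
# Settled structures: substructures, quotients, twists; dominated varieties
-/

noncomputable section

namespace GD

open Complex Module

/-- A quotient of a generated structure is generated. -/
theorem gen_of_surj {C : Str → Prop} {S T : Str} (hT : Gen C T) {f : T.W →ₗ[ℂ] S.W}
    (hf : IsHom T S f) (hs : Function.Surjective f) : Gen C S := by
  refine Gen.lin S 1 (fun _ => T) (fun _ => f) (fun _ => hT) (fun _ => hf) ?_
  rw [ciSup_const, LinearMap.range_eq_top.2 hs]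

theorem gen_of_subsingleton {C : Str → Prop} {S : Str} (h : Subsingleton S.W) : Gen C S := by
  refine Gen.lin S 0 (fun k => k.elim0) (fun k => k.elim0) (fun k => k.elim0)
    (fun k => k.elim0) ?_
  rw [eq_top_iff]
  intro x _
  rw [Subsingleton.elim x 0]
  exact zero_mem _

/-- The restriction of a polarisation along an injective morphism. -/
def polOfInj {S T : Str} (P : Pol T) {f : S.W →ₗ[ℂ] T.W} (hf : IsHom S T f)
    (hi : Function.Injective f) : Pol S where
  E := P.E.compl₁₂ f f
  rat x hx y hy := P.rat _ (hf.betti x hx) _ (hf.betti y hy)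
  dR x hx y hy := by
    rw [hf.wt]
    exact P.dR _ (hf.deRham x hx) _ (hf.deRham y hy)
  orth p q hpq x hx y hy := by
    rw [hf.wt] at hpq
    exact P.orth p q hpq _ (hf.hodge p x hx) _ (hf.hodge q y hy)
  pos p hp x hx hx0 := by
    rw [hf.wt] at hp ⊢
    have h1 := P.pos p hp _ (hf.hodge p x hx) fun h => hx0 (hi (by rw [h, map_zero]))
    rw [← DT.map_conj hf.betti x] at h1
    exact h1

/-- A structure with an injective morphism to a settled structure is settled. -/
theorem Settled.of_inj {S T : Str} (h : Settled T) {f : S.W →ₗ[ℂ] T.W} (hf : IsHom S T f)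
    (hi : Function.Injective f) : Settled S := by
  obtain ⟨⟨P⟩, hT⟩ := h
  refine ⟨⟨polOfInj P hf hi⟩, fun F _ _ e he R hR A =>
    hT F e he R (Gen.mono_of (fun S' h => ?_) hR) A⟩
  rw [h]
  exact gen_of_inj P (Gen.base T rfl) hf hi

/-- A polarised quotient of a settled structure is settled. -/
theorem Settled.of_surj {S T : Str} (h : Settled T) (P : Nonempty (Pol S))
    {f : T.W →ₗ[ℂ] S.W} (hf : IsHom T S f) (hs : Function.Surjective f) : Settled S := by
  refine ⟨P, fun F _ _ e he R hR A => h.2 F e he R (Gen.mono_of (fun S' h => ?_) hR) A⟩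
  rw [h]
  exact gen_of_surj (Gen.base T rfl) hf hs

end GD
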