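import Pool.Agent.H65.AP.Set
import Pool.Agent.H75.AP.Pack

/-!
# Values of the defects: logarithmic derivatives
-/

noncomputable section

namespace GD

open Complex Module NumberField

/-- The logarithmic derivative on the classes of complex numbers modulo algebraic numbers. -/
def lam (δ : Derivation Qbar ℂ ℂ) : Pool.Agent.H11.GD.V →ₗ[ℚ] ℂ :=
  Submodule.liftQ Pool.Agent.H11.GD.LogAlg
    (AddMonoidHom.toRatLinearMap
      { toFun := fun z => GA.dlog δ (Complex.exp z)
        map_zero' := by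
          rw [Complex.exp_zero]
          exact GA.dlog_alg δ isAlgebraic_one
        map_add' := fun x y => by
          rw [Complex.exp_add]
          exact GA.dlog_mul δ (Complex.exp_ne_zero x) (Complex.exp_ne_zero y) })
    (fun z hz => GA.dlog_alg δ hz)

theorem lam_cls (δ : Derivation Qbar ℂ ℂ) {x : ℂ} (hx : x ≠ 0) :
    lam δ (Pool.Agent.H11.GD.cls x) = GA.dlog δ x := by
  change GA.dlog δ (Complex.exp (Complex.log x)) = _
  rw [Complex.exp_log hx]

variable {N : ℕ} [NeZero N] {δ : Derivation Qbar ℂ ℂ} {c : (ZMod N)ˣ → ℂ} {S : Str}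

/-- The logarithmic derivative of the defect of a piece. -/
theorem lam_defect (hN : 3 ≤ N) {U : (ZMod N)ˣ → Submodule ℂ S.W} (hU : IsPiece N S U)
    (hc : GA.IsCoef δ N c) (m : (ZMod N)ˣ) :
    lam δ (defect Pool.Agent.H11.GD.cls N S U m) =
      trOn (S.A δ) (U m) - ∑ l, c l * (spaceType S (U (l * m)) : ℂ) := by
  obtain ⟨ε, hε⟩ := hU.exists_eps gammaSpec hN
  obtain ⟨z, hz⟩ := gc_exists_period (hU.betti m) (hU.deRham m)
  rw [defect_eq hU, uVal_eq gammaSpec hz, gVal_eq gammaSpec hε, ← cls_gammaProd gammaSpec,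
    map_sub, lam_cls δ (GA.spacePeriod_dlog hz).1, lam_cls δ (gammaProd_ne _ _ _),
    ← (GA.spacePeriod_dlog hz).2 δ, hc]
  congr 1
  refine Finset.sum_congr rfl fun l _ => ?_
  rw [hε, Rat.cast_natCast]

/-- `v` is the deviation of the trace of `A δ x` from the value given by the traces of the Hodge
operator. -/
def HasDef (S : Str) (D : ℕ) [NeZero D] (δ : Derivation Qbar ℂ ℂ) (c : (ZMod D)ˣ → ℂ)
    (x : Module.End ℂ S.W) (v : ℂ) : Prop :=
  ∃ t : cyc D, (t : ℂ) = LinearMap.trace ℂ S.W (DT.hOp S * x) ∧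
    LinearMap.trace ℂ S.W (S.A δ * x) = v + ∑ l, c l * ((sAut D l⁻¹ t : cyc D) : ℂ)

theorem HasDef.good {x : Module.End ℂ S.W} (h : HasDef S N δ c x 0) : GA.Good S N δ c x := by
  obtain ⟨t, h1, h2⟩ := h
  rw [zero_add] at h2
  exact ⟨t, h1, h2⟩

theorem HasDef.unique {x : Module.End ℂ S.W} {v w : ℂ} (h : HasDef S N δ c x v)
    (h' : HasDef S N δ c x w) : v = w := by
  obtain ⟨t, h1, h2⟩ := h
  obtain ⟨u, h3, h4⟩ := h'
  have h5 : t = u := Subtype.ext (h1.trans h3.symm)
  subst h5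
  rw [h2] at h4
  exact add_right_cancel h4

theorem hasDef_zero : HasDef S N δ c 0 0 := by
  obtain ⟨t, h1, h2⟩ := GA.good_zero (S := S) (N := N) (δ := δ) (c := c)
  exact ⟨t, h1, by rw [zero_add]; exact h2⟩

theorem HasDef.add {x y : Module.End ℂ S.W} {v w : ℂ} (hx : HasDef S N δ c x v)
    (hy : HasDef S N δ c y w) : HasDef S N δ c (x + y) (v + w) := by
  obtain ⟨t, h1, h2⟩ := hx
  obtain ⟨u, h3, h4⟩ := hy
  refine ⟨t + u, ?_, ?_⟩
  · rw [mul_add, map_add, ← h1, ← h3]
    rfl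
  · have h5 : ∑ l, c l * ((sAut N l⁻¹ (t + u) : cyc N) : ℂ) =
        ∑ l, c l * ((sAut N l⁻¹ t : cyc N) : ℂ) + ∑ l, c l * ((sAut N l⁻¹ u : cyc N) : ℂ) := by
      rw [← Finset.sum_add_distrib]
      refine Finset.sum_congr rfl fun l _ => ?_
      rw [map_add, ← mul_add]
      rfl
    rw [mul_add, map_add, h2, h4, h5]
    ring

theorem HasDef.smul (q : ℚ) {x : Module.End ℂ S.W} {v : ℂ} (hx : HasDef S N δ c x v) :
    HasDef S N δ c ((q : ℂ) • x) ((q : ℂ) * v) := by
  obtain ⟨t, h1, h2⟩ := hx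
  refine ⟨(q : cyc N) * t, ?_, ?_⟩
  · rw [mul_smul_comm, map_smul, smul_eq_mul, ← h1]
    rfl
  · have h5 : ∑ l, c l * ((sAut N l⁻¹ ((q : cyc N) * t) : cyc N) : ℂ) =
        (q : ℂ) * ∑ l, c l * ((sAut N l⁻¹ t : cyc N) : ℂ) := by
      rw [Finset.mul_sum]
      refine Finset.sum_congr rfl fun l _ => ?_
      rw [map_mul, map_ratCast]
      change c l * ((q : ℂ) * _) = _
      ring
    rw [mul_smul_comm, map_smul, smul_eq_mul, h2, h5]
    ring

theorem HasDef.sum {α : Type*} (s : Finset α) {x : α → Module.End ℂ S.W} {v : α → ℂ}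
    {q : α → ℚ} (h : ∀ i ∈ s, HasDef S N δ c (x i) (v i)) :
    HasDef S N δ c (∑ i ∈ s, (q i : ℂ) • x i) (∑ i ∈ s, (q i : ℂ) * v i) := by
  classical
  induction s using Finset.induction_on with
  | empty =>
    rw [Finset.sum_empty, Finset.sum_empty]
    exact hasDef_zero
  | insert a s ha ih =>
    rw [Finset.sum_insert ha, Finset.sum_insert ha]
    exact ((h a (Finset.mem_insert_self a s)).smul (q a)).add
      (ih fun i hi => h i (Finset.mem_insert_of_mem hi))

/-- The deviation of an automorphism of finite order. -/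
theorem hasDef_aut (P : Pol S) (hN : 3 ≤ N) (hc : GA.IsCoef δ N c) {g : Module.End ℂ S.W}
    (hg : IsHom S S g) (hgN : g ^ N = 1) : HasDef S N δ c g (∑ j : ZMod N, zeta N ^ j.val *
      lam δ (defect Pool.Agent.H11.GD.cls N S (eigPiece N S g j) 1)) := by
  classical
  have hA : S.A δ * g = g * S.A δ := by
    apply LinearMap.ext
    intro w
    exact A_nat δ g hg.betti hg.deRham w
  have hH : DT.hOp S * g = g * DT.hOp S := by
    apply LinearMap.ext
    intro w
    exact DT.isNat_hOp.nat S S g hg w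
  let t : ZMod N → ℕ := fun j => spaceType S (GA.eg g N j)
  have h1 : ∀ j, trOn (S.A δ) (GA.eg g N j) =
      lam δ (defect Pool.Agent.H11.GD.cls N S (eigPiece N S g j) 1) +
        ∑ l : (ZMod N)ˣ, c l * (t (l * j) : ℂ) := by
    intro j
    rw [lam_defect hN (isPiece_eig ⟨P⟩ hg hgN j) hc]
    have h3 : eigPiece N S g j 1 = GA.eg g N j := by
      rw [eigPiece, Units.val_one, one_mul]
      rfl
    have h4 : ∑ l : (ZMod N)ˣ, c l * (spaceType S (eigPiece N S g j (l * 1)) : ℂ) =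
        ∑ l : (ZMod N)ˣ, c l * (t (l * j) : ℂ) := by
      refine Finset.sum_congr rfl fun l _ => ?_
      rw [mul_one]
      rfl
    rw [h3, h4]
    ring
  have h2 : ∀ j, trOn (DT.hOp S) (GA.eg g N j) = (t j : ℂ) := by
    intro j
    have h3 := GA.part_hOp (GA.isHom_kap hg hgN j)
      (phi (algebraMap (GA.fld N j) ℂ) (GA.fe_mem N j) 1)
    rw [GA.kap_eigenpart, Units.val_one, one_mul] at h3
    exact h3
  let y : ZMod N → cyc N := fun j => (⟨zeta N, zeta_mem N⟩ : cyc N) ^ j.val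
  have hy : ∀ j, ((y j : cyc N) : ℂ) = zeta N ^ j.val := fun _ => rfl
  have hsy : ∀ (l : (ZMod N)ˣ) (j : ZMod N), sAut N l (y j) = y (l * j) := by
    intro l j
    rw [sAut_zeta N l (y j) (by rw [hy]; exact GA.pow_N N j)]
    apply Subtype.ext
    change (zeta N ^ j.val) ^ (l : ZMod N).val = zeta N ^ ((l : ZMod N) * j).val
    rw [← pow_mul, ZMod.val_mul, mul_comm]
    exact pow_eq_pow_mod _ (GA.zeta_pow_N (N := N))
  refine ⟨∑ j, y j * (t j : cyc N), ?_, ?_⟩
  · rw [GA.trace_mul hgN hH]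
    have h3 : ((∑ j, y j * (t j : cyc N) : cyc N) : ℂ) = ∑ j, zeta N ^ j.val * (t j : ℂ) := by
      rw [AddSubmonoidClass.coe_finsetSum]
      refine Finset.sum_congr rfl fun j _ => ?_
      rfl
    rw [h3]
    exact Finset.sum_congr rfl fun j _ => by rw [h2]
  · rw [GA.trace_mul hgN hA]
    have h3 : ∀ l : (ZMod N)ˣ, ((sAut N l⁻¹ (∑ j, y j * (t j : cyc N)) : cyc N) : ℂ) =
        ∑ j, zeta N ^ j.val * (t (l * j) : ℂ) := by
      intro l
      rw [map_sum, AddSubmonoidClass.coe_finsetSum]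
      rw [← Equiv.sum_comp (Units.mulLeft l)]
      refine Finset.sum_congr rfl fun j _ => ?_
      rw [map_mul, map_natCast, hsy, Units.mulLeft_apply, Units.inv_mul_cancel_left]
      rfl
    have h4 : ∑ l : (ZMod N)ˣ, c l * ∑ j, zeta N ^ j.val * (t (l * j) : ℂ) =
        ∑ j, zeta N ^ j.val * ∑ l : (ZMod N)ˣ, c l * (t (l * j) : ℂ) := by
      simp only [Finset.mul_sum]
      rw [Finset.sum_comm]
      refine Finset.sum_congr rfl fun l _ => Finset.sum_congr rfl fun j _ => ?_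
      ring
    simp only [h3, h1]
    rw [h4, ← Finset.sum_add_distrib]
    refine Finset.sum_congr rfl fun j _ => ?_
    ring

end GD
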